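import Pool.Agent.Helper54.DI.StmtsA

/-! The points of a family of points of `T` whose pairwise midpoints are not in `T` lie on the
flat. -/

namespace Pool.Agent.Helper54.DI

open Finset

theorem trick_kev_mid {k : ℕ} (h : KForm k) (p q : Fin k → ℝ) :
    kev h (fun l => (p l + q l) / 2) = (kev h p + kev h q) / 2 := by
  unfold kev
  have e : ∑ i, (h.1 i : ℝ) * ((p i + q i) / 2) =
      ((∑ i, (h.1 i : ℝ) * p i) + ∑ i, (h.1 i : ℝ) * q i) / 2 := by
    rw [← Finset.sum_add_distrib, Finset.sum_div]
    exact Finset.sum_congr rfl (fun i _ => by ring)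
  rw [e]
  ring

theorem trick_sign_mid (a b : ℝ) (h : SignType.sign a = SignType.sign b) :
    SignType.sign ((a + b) / 2) = SignType.sign a := by
  rcases lt_trichotomy a 0 with ha | ha | ha
  · rw [sign_neg ha] at h
    have hb : b < 0 := sign_eq_neg_one_iff.mp h.symm
    rw [sign_neg ha, sign_neg (by linarith)]
  · rw [ha, sign_zero] at h
    have hb : b = 0 := sign_eq_zero_iff.mp h.symm
    rw [ha, hb]
    simp
  · rw [sign_pos ha] at h
    have hb : 0 < b := sign_eq_one_iff.mp h.symm
    rw [sign_pos ha, sign_pos (by linarith)]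

theorem trick_sign_half (a b : ℝ) (h : b = 0) :
    SignType.sign ((a + b) / 2) = SignType.sign a := by
  subst h
  rcases lt_trichotomy a 0 with ha | ha | ha
  · rw [sign_neg ha, sign_neg (by linarith)]
  · rw [ha]
    simp
  · rw [sign_pos ha, sign_pos (by linarith)]

theorem st_TRICK : ST_TRICK := by
  intro k d A T φ H m a b hT hm hH hH' hA P hP
  obtain ⟨p, hp0, hp, hmid⟩ := hP
  by_contra hPr
  rw [← hp0] at hPr
  -- the key step
  have key : ∀ i j : Fin (m + 1), i < j → p i ∉ Set.range (nev φ) →
      (∀ h ∈ H, SignType.sign (kev h (fun l => (p i l + p j l) / 2)) =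
        SignType.sign (kev h (p i))) → False := by
    intro i j hij hir hs
    have hr : (fun l => (p i l + p j l) / 2) ∉ Set.range (nev φ) := by
      intro hr
      apply hir
      apply hH'
      intro h hh
      obtain ⟨x, hx⟩ := hr
      have h1 := hs h hh
      rw [← hx, hH h hh x, sign_zero] at h1
      exact sign_eq_zero_iff.mp h1.symm
    have hbox : Bx a b (fun l => (p i l + p j l) / 2) := by
      intro l
      have h1 := (hp i).2 l
      have h2 := (hp j).2 l
      constructor
      · show (a l : ℝ) ≤ (p i l + p j l) / 2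
        linarith [h1.1, h2.1]
      · show (p i l + p j l) / 2 ≤ (b l : ℝ)
        linarith [h1.2, h2.2]
    have hiff := hA (p i) (fun l => (p i l + p j l) / 2) (hp i).2 hbox hir hr
      (fun h hh => (hs h hh).symm)
    have h3 := hmid i j hij
    have h4 := (hp i).1
    rcases hT with hT | hT
    · rw [hT] at h3 h4
      exact h3 (hiff.mp h4)
    · rw [hT] at h3 h4
      exact h3 (fun h5 => h4 (hiff.mpr h5))
  -- all points are outside the flat
  have hall : ∀ j : Fin (m + 1), p j ∉ Set.range (nev φ) := by
    intro j
    rcases eq_or_ne j 0 with hj | hj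
    · rw [hj]
      exact hPr
    · intro hjr
      have hj0 : (0 : Fin (m + 1)) < j := Fin.pos_iff_ne_zero.mpr hj
      apply key 0 j hj0 hPr
      intro h hh
      obtain ⟨x, hx⟩ := hjr
      rw [trick_kev_mid]
      apply trick_sign_half
      rw [← hx]
      exact hH h hh x
  -- two points with the same signs
  have hcard : Fintype.card (Fin H.length → SignType) < Fintype.card (Fin (m + 1)) := by
    rw [Fintype.card_fun, Fintype.card_fin, Fintype.card_fin]
    have h3 : Fintype.card SignType = 3 := by decide
    rw [h3]
    omega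
  obtain ⟨i, j, hij, hsame⟩ := Fintype.exists_ne_map_eq_of_card_lt
    (fun i : Fin (m + 1) => fun t : Fin H.length => SignType.sign (kev (H.get t) (p i))) hcard
  have hsame' : ∀ h ∈ H, SignType.sign (kev h (p i)) = SignType.sign (kev h (p j)) := by
    intro h hh
    obtain ⟨t, ht⟩ := List.get_of_mem hh
    have := congrFun hsame t
    simp only [ht] at this
    exact this
  rcases lt_or_gt_of_ne hij with hlt | hlt
  · apply key i j hlt (hall i)
    intro h hh
    rw [trick_kev_mid]
    exact trick_sign_mid _ _ (hsame' h hh)
  · apply key j i hlt (hall j)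
    intro h hh
    rw [trick_kev_mid]
    exact trick_sign_mid _ _ (hsame' h hh).symm

end Pool.Agent.Helper54.DI
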